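import Mathlib

set_option autoImplicit false

open Set Finset

namespace Pool.Agent.Results.MP_9fecad_an.NoCommonMin

/-- The polynomial `G_{α,β}`. -/
noncomputable def G (α : ℕ) (β : ℝ) (ξ : ℂ) : ℂ :=
  ∑ n ∈ range (α + 2), ((α + 1).choose n : ℂ) * (-ξ) ^ n / ((n : ℂ) + (β : ℂ))

/-- `X 0, …, X α` are the branches of zeros of `G_{α,β}`, `X 0` being the negative real branch. -/
structure IsBranches (α : ℕ) (X : Fin (α + 1) → ℝ → ℂ) : Prop where
  cont : ∀ k, ContinuousOn (X k) (Ioo (-1) 0)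
  zeros : ∀ β ∈ Ioo (-1 : ℝ) 0, ∀ ξ : ℂ, G α β ξ = 0 ↔ ∃ k, X k β = ξ
  simple : ∀ β ∈ Ioo (-1 : ℝ) 0, Function.Injective (fun k => X k β)
  neg : ∀ β ∈ Ioo (-1 : ℝ) 0, (X 0 β).im = 0 ∧ (X 0 β).re < 0

/-- The real quartic. -/
noncomputable def g (β x : ℝ) : ℝ :=
  1 / β - 4 * x / (1 + β) + 6 * x ^ 2 / (2 + β) - 4 * x ^ 3 / (3 + β) + x ^ 4 / (4 + β)

theorem G3 (β : ℝ) (ξ : ℂ) : G 3 β ξ = 1 / (β : ℂ) - 4 * ξ / (1 + β) + 6 * ξ ^ 2 / (2 + β)
    - 4 * ξ ^ 3 / (3 + β) + ξ ^ 4 / (4 + β) := by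
  unfold G
  simp [sum_range_succ, Nat.choose]
  ring

theorem G3_real (β x : ℝ) : G 3 β (x : ℂ) = (g β x : ℂ) := by
  rw [G3]
  unfold g
  push_cast
  ring

theorem g_zero (β : ℝ) : g β 0 = 1 / β := by
  simp [g]

theorem g_cont (β : ℝ) : Continuous (g β) := by
  unfold g
  fun_prop

theorem g_convex (β : ℝ) (hβ : β ∈ Ioo (-1 : ℝ) 0) : ConvexOn ℝ univ (g β) := by
  obtain ⟨h1, h0⟩ := hβ
  have hd1 : ∀ x, HasDerivAt (g β) (-4 / (1 + β) + 12 * x / (2 + β) - 12 * x ^ 2 / (3 + β)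
      + 4 * x ^ 3 / (4 + β)) x := by
    intro x
    unfold g
    have e1 : HasDerivAt (fun x : ℝ => 1 / β - 4 * x / (1 + β) + 6 * x ^ 2 / (2 + β)
        - 4 * x ^ 3 / (3 + β) + x ^ 4 / (4 + β)) (0 - 4 * 1 / (1 + β) + 6 * (2 * x) / (2 + β)
        - 4 * (3 * x ^ 2) / (3 + β) + 4 * x ^ 3 / (4 + β)) x := by
      have i1 : HasDerivAt (fun x : ℝ => 4 * x / (1 + β)) (4 * 1 / (1 + β)) x :=
        ((hasDerivAt_id x).const_mul 4).div_const _
      have i2 : HasDerivAt (fun x : ℝ => 6 * x ^ 2 / (2 + β)) (6 * (2 * x) / (2 + β)) x := by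
        have := ((hasDerivAt_pow 2 x).const_mul 6).div_const (2 + β)
        simpa using this
      have i3 : HasDerivAt (fun x : ℝ => 4 * x ^ 3 / (3 + β)) (4 * (3 * x ^ 2) / (3 + β)) x := by
        have := ((hasDerivAt_pow 3 x).const_mul 4).div_const (3 + β)
        simpa using this
      have i4 : HasDerivAt (fun x : ℝ => x ^ 4 / (4 + β)) (4 * x ^ 3 / (4 + β)) x := by
        have := (hasDerivAt_pow 4 x).div_const (4 + β)
        simpa using this
      exact (((((hasDerivAt_const x (1 / β)).sub i1).add i2).sub i3).add i4)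
    convert e1 using 1
    ring
  have hd2 : ∀ x, HasDerivAt (fun x : ℝ => -4 / (1 + β) + 12 * x / (2 + β) - 12 * x ^ 2 / (3 + β)
      + 4 * x ^ 3 / (4 + β)) (12 / (2 + β) - 24 * x / (3 + β) + 12 * x ^ 2 / (4 + β)) x := by
    intro x
    have e1 : HasDerivAt (fun x : ℝ => -4 / (1 + β) + 12 * x / (2 + β) - 12 * x ^ 2 / (3 + β)
      + 4 * x ^ 3 / (4 + β)) (0 + 12 * 1 / (2 + β) - 12 * (2 * x) / (3 + β)
        + 4 * (3 * x ^ 2) / (4 + β)) x := by
      have i1 : HasDerivAt (fun x : ℝ => 12 * x / (2 + β)) (12 * 1 / (2 + β)) x :=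
        ((hasDerivAt_id x).const_mul 12).div_const _
      have i2 : HasDerivAt (fun x : ℝ => 12 * x ^ 2 / (3 + β)) (12 * (2 * x) / (3 + β)) x := by
        have := ((hasDerivAt_pow 2 x).const_mul 12).div_const (3 + β)
        simpa using this
      have i3 : HasDerivAt (fun x : ℝ => 4 * x ^ 3 / (4 + β)) (4 * (3 * x ^ 2) / (4 + β)) x := by
        have := ((hasDerivAt_pow 3 x).const_mul 4).div_const (4 + β)
        simpa using this
      exact ((((hasDerivAt_const x (-4 / (1 + β))).add i1).sub i2).add i3)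
    convert e1 using 1
    ring
  apply convexOn_univ_of_deriv2_nonneg
  · exact fun x => (hd1 x).differentiableAt
  · have : deriv (g β) = fun x : ℝ => -4 / (1 + β) + 12 * x / (2 + β) - 12 * x ^ 2 / (3 + β)
      + 4 * x ^ 3 / (4 + β) := funext fun x => (hd1 x).deriv
    rw [this]
    exact fun x => (hd2 x).differentiableAt
  · intro x
    have : deriv (g β) = fun x : ℝ => -4 / (1 + β) + 12 * x / (2 + β) - 12 * x ^ 2 / (3 + β)
      + 4 * x ^ 3 / (4 + β) := funext fun x => (hd1 x).deriv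
    show 0 ≤ deriv (deriv (g β)) x
    rw [this, (hd2 x).deriv]
    have p2 : 0 < 2 + β := by linarith
    have p3 : 0 < 3 + β := by linarith
    have p4 : 0 < 4 + β := by linarith
    have e : 12 / (2 + β) - 24 * x / (3 + β) + 12 * x ^ 2 / (4 + β) =
        12 * ((3 + β) * (4 + β) - 2 * x * (2 + β) * (4 + β) + x ^ 2 * (2 + β) * (3 + β)) /
          ((2 + β) * (3 + β) * (4 + β)) := by
      field_simp
      ring
    rw [e]
    apply div_nonneg _ (by positivity)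
    have h3 : 0 ≤ (3 + β) * (4 + β) - 2 * x * (2 + β) * (4 + β) + x ^ 2 * (2 + β) * (3 + β) := by
      have h4 : 0 < (2 + β) * (3 + β) := by positivity
      have h5 : 0 ≤ (2 + β) * (3 + β) * ((3 + β) * (4 + β) - 2 * x * (2 + β) * (4 + β) +
          x ^ 2 * (2 + β) * (3 + β)) := by
        have e2 : (2 + β) * (3 + β) * ((3 + β) * (4 + β) - 2 * x * (2 + β) * (4 + β) +
          x ^ 2 * (2 + β) * (3 + β)) = ((2 + β) * (3 + β) * x - (2 + β) * (4 + β)) ^ 2 +
            (2 + β) * (4 + β) * ((3 + β) ^ 2 - (2 + β) * (4 + β)) := by ring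
        rw [e2]
        have e3 : (3 + β) ^ 2 - (2 + β) * (4 + β) = 1 := by ring
        rw [e3]
        positivity
      exact nonneg_of_mul_nonneg_right h5 h4
    linarith

/-- Sign rules from convexity. -/
theorem sign_pos (β : ℝ) (hβ : β ∈ Ioo (-1 : ℝ) 0) (p x : ℝ) (hp : 0 < p) (hgp : g β p = 0)
    (hx : p ≤ x) : 0 ≤ g β x := by
  have hc := g_convex β hβ
  have h0 : g β 0 < 0 := by rw [g_zero]; exact one_div_neg.2 hβ.2
  have hx0 : 0 < x := hp.trans_le hx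
  have h1 := hc.2 (mem_univ (0 : ℝ)) (mem_univ x)
    (show (0 : ℝ) ≤ 1 - p / x by rw [sub_nonneg, div_le_one hx0]; exact hx)
    (show (0 : ℝ) ≤ p / x by positivity) (by ring)
  simp only [smul_eq_mul, mul_zero, zero_add] at h1
  rw [div_mul_cancel₀ _ hx0.ne', hgp] at h1
  by_contra hno
  push Not at hno
  have h2 : 0 < p / x := by positivity
  have h3 : 0 ≤ 1 - p / x := by rw [sub_nonneg, div_le_one hx0]; exact hx
  nlinarith

theorem sign_neg (β : ℝ) (hβ : β ∈ Ioo (-1 : ℝ) 0) (q x : ℝ) (hgq : g β q = 0)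
    (hx : (0 ≤ x ∧ x < q) ∨ (q < x ∧ x ≤ 0)) : g β x < 0 := by
  have hc := g_convex β hβ
  have h0 : g β 0 < 0 := by rw [g_zero]; exact one_div_neg.2 hβ.2
  have hq0 : q ≠ 0 := by
    rcases hx with ⟨h1, h2⟩ | ⟨h1, h2⟩
    · exact (h1.trans_lt h2).ne'
    · exact (h1.trans_le h2).ne
  have hr : 0 ≤ x / q ∧ x / q < 1 := by
    rcases hx with ⟨h1, h2⟩ | ⟨h1, h2⟩
    · have hq : 0 < q := h1.trans_lt h2
      exact ⟨by positivity, by rw [div_lt_one hq]; exact h2⟩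
    · have hq : q < 0 := h1.trans_le h2
      refine ⟨div_nonneg_of_nonpos h2 hq.le, ?_⟩
      rw [div_lt_one_of_neg hq]; exact h1
  have h1 := hc.2 (mem_univ (0 : ℝ)) (mem_univ q)
    (show (0 : ℝ) ≤ 1 - x / q by linarith [hr.2]) hr.1 (by ring)
  simp only [smul_eq_mul, mul_zero, zero_add] at h1
  rw [div_mul_cancel₀ _ hq0, hgq, mul_zero, add_zero] at h1
  have h3 : 0 < 1 - x / q := by linarith [hr.2]
  nlinarith

theorem pos_root (β : ℝ) (hβ : β ∈ Ioo (-1 : ℝ) 0) : ∃ p : ℝ, 0 < p ∧ g β p = 0 := by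
  have h0 : g β 0 < 0 := by rw [g_zero]; exact one_div_neg.2 hβ.2
  obtain ⟨h1, h2⟩ := hβ
  have hbig : ∃ M : ℝ, 0 < M ∧ 0 ≤ g β M := by
    set b := -β with hb
    refine ⟨100 / b + 100 / (1 + β), ?_, ?_⟩
    · have hb0 : 0 < b := by linarith
      have : 0 < 1 + β := by linarith
      positivity
    · have hb0 : 0 < b := by linarith
      have hc0 : 0 < 1 + β := by linarith
      set M := 100 / b + 100 / (1 + β) with hM
      have hb1 : 100 ≤ 100 / b := by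
        rw [le_div_iff₀ hb0]; nlinarith
      have hc1 : 100 ≤ 100 / (1 + β) := by
        rw [le_div_iff₀ hc0]; nlinarith
      have hM2 : 200 ≤ M := by rw [hM]; linarith
      have e1 : -1 / b ≥ -M := by
        have : 100 / b = 100 * (1 / b) := by ring
        have h3 : 0 < 1 / b := by positivity
        have h4 : -1 / b = -(1 / b) := by ring
        rw [h4]
        have h5 : 0 < 100 / (1 + β) := by positivity
        nlinarith
      have e2 : 4 * M / (1 + β) ≤ M ^ 2 := by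
        have h3 : 4 / (1 + β) ≤ M := by
          have : 4 / (1 + β) ≤ 100 / (1 + β) := by gcongr; norm_num
          have h5 : 0 < 100 / b := by positivity
          linarith
        have h4 : 4 * M / (1 + β) = M * (4 / (1 + β)) := by ring
        rw [h4, sq]
        gcongr
      have e3 : 4 * M ^ 3 / (3 + β) ≤ 2 * M ^ 3 := by
        rw [div_le_iff₀ (by linarith)]
        have : 0 < M ^ 3 := by positivity
        nlinarith
      have e4 : M ^ 4 / 4 ≤ M ^ 4 / (4 + β) :=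
        div_le_div_of_nonneg_left (by positivity) (by linarith) (by linarith)
      have e5 : 0 ≤ 6 * M ^ 2 / (2 + β) := by
        apply div_nonneg (by positivity); linarith
      have e6 : 1 / β = -1 / b := by rw [hb]; rw [div_neg, neg_div, neg_neg]
      unfold g
      rw [e6]
      have e7 : (0 : ℝ) ≤ M ^ 4 / 4 - 2 * M ^ 3 - M ^ 2 - M := by
        have : M ^ 4 / 4 - 2 * M ^ 3 - M ^ 2 - M = M * (M ^ 2 * (M / 4 - 2) - M - 1) := by ring
        rw [this]
        apply mul_nonneg (by linarith)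
        nlinarith
      linarith
  obtain ⟨M, hM0, hM⟩ := hbig
  obtain ⟨p, hp, hgp⟩ := intermediate_value_Icc hM0.le (g_cont β).continuousOn
    (show (0 : ℝ) ∈ Icc (g β 0) (g β M) from ⟨h0.le, hM⟩)
  refine ⟨p, ?_, hgp⟩
  rcases hp.1.lt_or_eq with h | h
  · exact h
  · rw [← h] at hgp; linarith

/-- The remaining pair of zeros. -/
theorem pair (β : ℝ) (hβ : β ∈ Ioo (-1 : ℝ) 0) (n p : ℝ) (hn : n < 0) (hp : 0 < p)
    (hgn : g β n = 0) (hgp : g β p = 0)
    (hdisc : (4 * (4 + β) / (3 + β) - n - p) ^ 2 < 4 * ((4 + β) / (β * n * p)))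
    (w : ℂ) (hw : G 3 β w = 0) (hwn : w ≠ n) (hwp : w ≠ p) :
    ‖w‖ ^ 2 = (4 + β) / (β * n * p) := by
  obtain ⟨h1, h0⟩ := hβ
  have q0 : β ≠ 0 := h0.ne
  have q1 : (1 + β) ≠ 0 := by linarith
  have q2 : (2 + β) ≠ 0 := by linarith
  have q3 : (3 + β) ≠ 0 := by linarith
  have q4 : (4 + β) ≠ 0 := by linarith
  set a0 := 1 / β with ha0
  set a1 := 4 / (1 + β) with ha1
  set a2 := 6 / (2 + β) with ha2
  set a3 := 4 / (3 + β) with ha3
  set a4 := 1 / (4 + β) with ha4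
  have hgn' : a0 - a1 * n + a2 * n ^ 2 - a3 * n ^ 3 + a4 * n ^ 4 = 0 := by
    rw [← hgn]; unfold g; rw [ha0, ha1, ha2, ha3, ha4]; ring
  have hgp' : a0 - a1 * p + a2 * p ^ 2 - a3 * p ^ 3 + a4 * p ^ 4 = 0 := by
    rw [← hgp]; unfold g; rw [ha0, ha1, ha2, ha3, ha4]; ring
  have hw' : (a0 : ℂ) - a1 * w + a2 * w ^ 2 - a3 * w ^ 3 + a4 * w ^ 4 = 0 := by
    rw [← hw, G3, ha0, ha1, ha2, ha3, ha4]
    push_cast
    ring
  have hnp : n - p ≠ 0 := by linarith
  -- the quadratic factor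
  set S := 4 * (4 + β) / (3 + β) - n - p with hS
  set T := (4 + β) / (β * n * p) with hT
  have hSa : a4 * S = a3 - a4 * (n + p) := by
    rw [hS, ha4, ha3]
    field_simp
    ring
  have hn0 : n ≠ 0 := hn.ne
  have hp0 : p ≠ 0 := hp.ne'
  have hTa : a4 * T * (n * p) = a0 := by
    rw [hT, ha4, ha0]
    field_simp
  have hC : a4 * (n ^ 2 + n * p + p ^ 2) - a3 * (n + p) + a2 = a4 * T := by
    have h3 : (n - p) * (n * p) * (a4 * (n ^ 2 + n * p + p ^ 2) - a3 * (n + p) + a2) =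
        (n - p) * (n * p) * (a4 * T) := by
      have h4 : (n - p) * (n * p) * (a4 * T) = (n - p) * a0 := by rw [← hTa]; ring
      rw [h4]
      linear_combination p * hgn' - n * hgp'
    exact mul_left_cancel₀ (mul_ne_zero hnp (mul_ne_zero hn0 hp0)) h3
  have hquad : w ^ 2 - S * w + T = 0 := by
    have hgnc : (a0 : ℂ) - a1 * n + a2 * n ^ 2 - a3 * n ^ 3 + a4 * n ^ 4 = 0 := by
      exact_mod_cast hgn'
    have hgpc : (a0 : ℂ) - a1 * p + a2 * p ^ 2 - a3 * p ^ 3 + a4 * p ^ 4 = 0 := by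
      exact_mod_cast hgp'
    have hSc : (a4 : ℂ) * S = a3 - a4 * (n + p) := by exact_mod_cast hSa
    have hCc : (a4 : ℂ) * (n ^ 2 + n * p + p ^ 2) - a3 * (n + p) + a2 = a4 * T := by
      exact_mod_cast hC
    have hnpc : (n : ℂ) - p ≠ 0 := by exact_mod_cast hnp
    have hwn' : w - n ≠ 0 := sub_ne_zero.2 hwn
    have hwp' : w - p ≠ 0 := sub_ne_zero.2 hwp
    have ha4c : (a4 : ℂ) ≠ 0 := by
      have : a4 ≠ 0 := by rw [ha4]; exact one_div_ne_zero q4
      exact_mod_cast this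
    have h5 : (a4 : ℂ) * ((n - p) * (w - n) * (w - p)) * (w ^ 2 - S * w + T) = 0 := by
      have h6 : (a4 : ℂ) * ((n - p) * (w - n) * (w - p)) * (w ^ 2 - S * w + T) =
          ((n - p) * (w - n) * (w - p)) * (a4 * w ^ 2 - (a3 - a4 * (n + p)) * w +
            (a4 * (n ^ 2 + n * p + p ^ 2) - a3 * (n + p) + a2)) := by
        rw [hCc, ← hSc]; ring
      rw [h6]
      linear_combination ((n : ℂ) - p) * hw' - (w - p) * hgnc + (w - n) * hgpc
    rcases mul_eq_zero.1 h5 with h | h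
    · exact absurd h (mul_ne_zero ha4c (mul_ne_zero (mul_ne_zero hnpc hwn') hwp'))
    · exact h
  -- real and imaginary parts
  have hre := congrArg Complex.re hquad
  have him := congrArg Complex.im hquad
  simp [sq] at hre him
  have hfac : w.im * (2 * w.re - S) = 0 := by linarith
  rw [Complex.sq_norm, Complex.normSq_apply]
  rcases mul_eq_zero.1 hfac with h | h
  · exfalso
    rw [h] at hre
    have h7 : (2 * w.re - S) ^ 2 = S ^ 2 - 4 * T := by nlinarith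
    have h8 := sq_nonneg (2 * w.re - S)
    linarith
  · have h9 : S = 2 * w.re := by linarith
    rw [h9] at hre
    linarith

/-- The shape of the zero set at a parameter. -/
theorem shape (X : Fin 4 → ℝ → ℂ) (hX : IsBranches 3 X) (β : ℝ) (hβ : β ∈ Ioo (-1 : ℝ) 0) :
    ∃ n p : ℝ, n < 0 ∧ 0 < p ∧ g β n = 0 ∧ g β p = 0 ∧ X 0 β = (n : ℂ) ∧
      ∃ k : Fin 4, k ≠ 0 ∧ X k β = (p : ℂ) ∧ ∀ j : Fin 4, j ≠ 0 → j ≠ k →
        ((4 * (4 + β) / (3 + β) - n - p) ^ 2 < 4 * ((4 + β) / (β * n * p)) →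
          ‖X j β‖ ^ 2 = (4 + β) / (β * n * p)) := by
  obtain ⟨p, hp, hgp⟩ := pos_root β hβ
  have hn := hX.neg β hβ
  have hX0 : X 0 β = (((X 0 β).re : ℝ) : ℂ) := by
    apply Complex.ext
    · simp
    · simp [hn.1]
  have hgn : g β (X 0 β).re = 0 := by
    have h1 := (hX.zeros β hβ (X 0 β)).2 ⟨0, rfl⟩
    rw [hX0, G3_real] at h1
    exact_mod_cast h1
  have hgpc : G 3 β (p : ℂ) = 0 := by rw [G3_real, hgp]; simp
  obtain ⟨k, hk⟩ := (hX.zeros β hβ (p : ℂ)).1 hgpc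
  have hk0 : k ≠ 0 := by
    rintro rfl
    have h1 : (X 0 β).re = p := by rw [hk]; simp
    linarith [hn.2]
  refine ⟨(X 0 β).re, p, hn.2, hp, hgn, hgp, hX0, k, hk0, hk, fun j hj0 hjk hdisc => ?_⟩
  apply pair β hβ _ p hn.2 hp hgn hgp hdisc
  · exact (hX.zeros β hβ (X j β)).2 ⟨j, rfl⟩
  · intro h
    apply hj0
    apply hX.simple β hβ
    show X j β = X 0 β
    rw [h, ← hX0]
  · intro h
    apply hjk
    apply hX.simple β hβ
    show X j β = X k β
    rw [h, hk]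

/-- Localisation of the parameter. -/
theorem localise (β : ℝ) (hβ : β ∈ Ioo (-1 : ℝ) 0) (h : 0 ≤ g β (37321 / 10000)) :
    -(272 / 1000) ≤ β ∧ β ≤ -(264 / 1000) := by
  obtain ⟨h1, h0⟩ := hβ
  obtain ⟨t, rfl⟩ : ∃ t, β = -t := ⟨-β, by ring⟩
  have t0 : 0 < t := by linarith
  have t1 : 0 < 1 - t := by linarith
  have t2 : 0 < 2 - t := by linarith
  have t3 : 0 < 3 - t := by linarith
  have t4 : 0 < 4 - t := by linarith
  set x : ℝ := 37321 / 10000 with hx
  have hR : 0 ≤ -(1 - t) * (2 - t) * (3 - t) * (4 - t) - 4 * x * t * (2 - t) * (3 - t) * (4 - t)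
      + 6 * x ^ 2 * t * (1 - t) * (3 - t) * (4 - t) - 4 * x ^ 3 * t * (1 - t) * (2 - t) * (4 - t)
      + x ^ 4 * t * (1 - t) * (2 - t) * (3 - t) := by
    have e : -(1 - t) * (2 - t) * (3 - t) * (4 - t) - 4 * x * t * (2 - t) * (3 - t) * (4 - t)
      + 6 * x ^ 2 * t * (1 - t) * (3 - t) * (4 - t) - 4 * x ^ 3 * t * (1 - t) * (2 - t) * (4 - t)
      + x ^ 4 * t * (1 - t) * (2 - t) * (3 - t) =
        (t * (1 - t) * (2 - t) * (3 - t) * (4 - t)) * g (-t) x := by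
      unfold g
      rw [show (1 : ℝ) + -t = 1 - t by ring, show (2 : ℝ) + -t = 2 - t by ring,
        show (3 : ℝ) + -t = 3 - t by ring, show (4 : ℝ) + -t = 4 - t by ring, div_neg]
      field_simp
    rw [e]
    exact mul_nonneg (by positivity) h
  rw [hx] at hR
  constructor
  · by_contra hno
    push Not at hno
    have u0 : 0 < t - 272 / 1000 := by linarith
    nlinarith [mul_pos u0 u0, mul_pos (mul_pos u0 u0) t0, mul_pos u0 t1, mul_pos (mul_pos u0 t1) u0,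
      mul_pos (mul_pos u0 u0) (mul_pos t1 t1)]
  · by_contra hno
    push Not at hno
    have u0 : 0 < 264 / 1000 - t := by linarith
    nlinarith [mul_pos u0 u0, mul_pos (mul_pos u0 u0) t0, mul_pos u0 t0, mul_pos (mul_pos u0 t0) u0,
      mul_pos (mul_pos u0 u0) (mul_pos t0 t0)]

theorem sign_ge (β : ℝ) (hβ : β ∈ Ioo (-1 : ℝ) 0) (q x : ℝ) (hgq : g β q = 0)
    (h : (0 < q ∧ q ≤ x) ∨ (x ≤ q ∧ q < 0)) : 0 ≤ g β x := by
  rcases h with ⟨h1, h2⟩ | ⟨h1, h2⟩
  · exact sign_pos β hβ q x h1 hgq h2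
  · by_contra hno
    push Not at hno
    have hc := g_convex β hβ
    have h0 : g β 0 < 0 := by rw [g_zero]; exact one_div_neg.2 hβ.2
    have hx0 : x < 0 := h1.trans_lt h2
    have hr0 : 0 < q / x := div_pos_of_neg_of_neg h2 hx0
    have hr1 : q / x ≤ 1 := by rw [div_le_one_of_neg hx0]; exact h1
    have h3 := hc.2 (mem_univ (0 : ℝ)) (mem_univ x)
      (show (0 : ℝ) ≤ 1 - q / x by linarith) hr0.le (by ring)
    simp only [smul_eq_mul, mul_zero, zero_add] at h3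
    rw [div_mul_cancel₀ _ hx0.ne, hgq] at h3
    nlinarith

/-- Below the root in absolute value. -/
theorem lt_of_neg (β : ℝ) (hβ : β ∈ Ioo (-1 : ℝ) 0) (p x : ℝ) (hp : 0 < p) (hgp : g β p = 0)
    (hx : g β x < 0) : x < p := by
  by_contra hno
  push Not at hno
  linarith [sign_ge β hβ p x hgp (Or.inl ⟨hp, hno⟩)]

theorem gt_of_neg (β : ℝ) (hβ : β ∈ Ioo (-1 : ℝ) 0) (n x : ℝ) (hn : n < 0) (hgn : g β n = 0)
    (hx : g β x < 0) : n < x := by
  by_contra hno
  push Not at hno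
  linarith [sign_ge β hβ n x hgn (Or.inr ⟨hno, hn⟩)]

theorem lt_of_pos (β : ℝ) (hβ : β ∈ Ioo (-1 : ℝ) 0) (p x : ℝ) (hgp : g β p = 0)
    (hx0 : 0 ≤ x) (hx : 0 < g β x) : p < x := by
  by_contra hno
  push Not at hno
  rcases hno.lt_or_eq with h | h
  · linarith [sign_neg β hβ p x hgp (Or.inl ⟨hx0, h⟩)]
  · rw [h, hgp] at hx; exact lt_irrefl _ hx

theorem gt_of_pos (β : ℝ) (hβ : β ∈ Ioo (-1 : ℝ) 0) (n x : ℝ) (hgn : g β n = 0)
    (hx0 : x ≤ 0) (hx : 0 < g β x) : x < n := by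
  by_contra hno
  push Not at hno
  rcases hno.lt_or_eq with h | h
  · linarith [sign_neg β hβ n x hgn (Or.inr ⟨h, hx0⟩)]
  · rw [← h, hgn] at hx; exact lt_irrefl _ hx

theorem bound_one (X : Fin 4 → ℝ → ℂ) (hX : IsBranches 3 X) (k : Fin 4) (hk : k ≠ 0) :
    ‖X k (-(67 / 250))‖ ≤ 37321 / 10000 := by
  have hβ : (-(67 / 250) : ℝ) ∈ Ioo (-1 : ℝ) 0 := by constructor <;> norm_num
  obtain ⟨n, p, hn, hp, hgn, hgp, -, k₁, -, hk₁, hrest⟩ := shape X hX _ hβ
  have p1 : p < 37321 / 10000 := lt_of_pos _ hβ p _ hgp (by norm_num) (by norm_num [g])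
  have p2 : 35 / 10 < p := lt_of_neg _ hβ p _ hp hgp (by norm_num [g])
  have n1 : n < -(4 / 10) := by
    have := gt_of_neg _ hβ n (-(4 / 10)) hn hgn (by norm_num [g])
    exact this
  have n2 : -(6 / 10) < n := gt_of_pos _ hβ n _ hgn (by norm_num) (by norm_num [g])
  by_cases hkk : k = k₁
  · rw [hkk, hk₁, Complex.norm_real, Real.norm_eq_abs, abs_of_pos hp]
    exact p1.le
  · have hb : (-(67 / 250) : ℝ) * n * p = 67 / 250 * (-n * p) := by ring
    have hnp1 : 14 / 10 ≤ -n * p := by nlinarith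
    have hnp2 : -n * p ≤ 24 / 10 := by nlinarith
    have hT1 : (4 + -(67 / 250) : ℝ) / (-(67 / 250) * n * p) ≤ 13 := by
      rw [hb, div_le_iff₀ (by positivity)]
      nlinarith
    have hT2 : 5 ≤ (4 + -(67 / 250) : ℝ) / (-(67 / 250) * n * p) := by
      rw [hb, le_div_iff₀ (by positivity)]
      nlinarith
    have hS : (4 * (4 + -(67 / 250)) / (3 + -(67 / 250)) - n - p) ^ 2 <
        4 * ((4 + -(67 / 250) : ℝ) / (-(67 / 250) * n * p)) := by
      have e : (4 * (4 + -(67 / 250)) / (3 + -(67 / 250)) : ℝ) = 3732 / 683 := by norm_num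
      rw [e]
      have : (3732 / 683 - n - p) ^ 2 ≤ 3 ^ 2 := by
        apply sq_le_sq'
        · linarith
        · linarith
      linarith
    have h1 := hrest k hk hkk hS
    have h2 : ‖X k (-(67 / 250))‖ ^ 2 ≤ (37321 / 10000) ^ 2 := by
      rw [h1]
      norm_num at hT1 ⊢
      linarith
    exact le_of_sq_le_sq h2 (by norm_num) |> fun h => h

theorem bound_zero (X : Fin 4 → ℝ → ℂ) (hX : IsBranches 3 X) :
    ∃ j : Fin 4, j ≠ 0 ∧ ‖X j (-(1 / 3))‖ ^ 2 ≤ 7488 / 1000 := by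
  have hβ : (-(1 / 3) : ℝ) ∈ Ioo (-1 : ℝ) 0 := by constructor <;> norm_num
  obtain ⟨n, p, hn, hp, hgn, hgp, -, k₁, -, hk₁, hrest⟩ := shape X hX _ hβ
  have p1 : p < 38 / 10 := lt_of_pos _ hβ p _ hgp (by norm_num) (by norm_num [g])
  have p2 : 37525 / 10000 < p := lt_of_neg _ hβ p _ hp hgp (by norm_num [g])
  have n1 : n < -(3915 / 10000) := gt_of_neg _ hβ n _ hn hgn (by norm_num [g])
  have n2 : -(4 / 10) < n := gt_of_pos _ hβ n _ hgn (by norm_num) (by norm_num [g])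
  have hj : ∀ k₁ : Fin 4, ∃ j : Fin 4, j ≠ 0 ∧ j ≠ k₁ := by decide
  obtain ⟨j, hj0, hjk⟩ := hj k₁
  refine ⟨j, hj0, ?_⟩
  have hb : (-(1 / 3) : ℝ) * n * p = 1 / 3 * (-n * p) := by ring
  have hnp1 : 3915 / 10000 * (37525 / 10000) ≤ -n * p := by nlinarith
  have hnp2 : -n * p ≤ 152 / 100 := by nlinarith
  have hT1 : (4 + -(1 / 3) : ℝ) / (-(1 / 3) * n * p) ≤ 7488 / 1000 := by
    rw [hb, div_le_iff₀ (by positivity)]
    nlinarith
  have hT2 : 7 ≤ (4 + -(1 / 3) : ℝ) / (-(1 / 3) * n * p) := by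
    rw [hb, le_div_iff₀ (by positivity)]
    nlinarith
  have hS : (4 * (4 + -(1 / 3)) / (3 + -(1 / 3)) - n - p) ^ 2 <
      4 * ((4 + -(1 / 3) : ℝ) / (-(1 / 3) * n * p)) := by
    have e : (4 * (4 + -(1 / 3)) / (3 + -(1 / 3)) : ℝ) = 11 / 2 := by norm_num
    rw [e]
    have : (11 / 2 - n - p) ^ 2 ≤ 3 ^ 2 := by
      apply sq_le_sq'
      · linarith
      · linarith
    linarith
  rw [hrest j hj0 hjk hS]
  exact hT1

theorem at_min (t : ℝ) (h1 : 264 / 1000 ≤ t) (h2 : t ≤ 272 / 1000) (n p : ℝ) (hn : n < 0)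
    (hp : 0 < p) (hgn : g (-t) n = 0) (hgp : g (-t) p = 0) (hp1 : p ≤ 37321 / 10000) :
    3 < p ∧ 7499 / 1000 ≤ (4 + -t) / (-t * n * p) ∧
      (4 * (4 + -t) / (3 + -t) - n - p) ^ 2 < 4 * ((4 + -t) / (-t * n * p)) := by
  have hβ : -t ∈ Ioo (-1 : ℝ) 0 := by constructor <;> linarith
  have t0 : 0 < t := by linarith
  have t1 : 0 < 1 - t := by linarith
  have t2 : 0 < 2 - t := by linarith
  have t3 : 0 < 3 - t := by linarith
  have t4 : 0 < 4 - t := by linarith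
  have r1 : (1 : ℝ) + -t = 1 - t := by ring
  have r2 : (2 : ℝ) + -t = 2 - t := by ring
  have r3 : (3 : ℝ) + -t = 3 - t := by ring
  have r4 : (4 : ℝ) + -t = 4 - t := by ring
  have p3 : 3 < p := by
    apply lt_of_neg _ hβ p 3 hp hgp
    unfold g
    rw [r1, r2, r3, r4, div_neg]
    have a0 : 1000 / 272 ≤ 1 / t := by rw [div_le_div_iff₀ (by norm_num) t0]; linarith
    have a1 : 12000 / 736 ≤ 4 * 3 / (1 - t) := by
      rw [div_le_div_iff₀ (by norm_num) t1]; linarith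
    have a2 : 6 * 3 ^ 2 / (2 - t) ≤ 54000 / 1728 := by
      rw [div_le_div_iff₀ t2 (by norm_num)]; linarith
    have a3 : 108000 / 2736 ≤ 4 * 3 ^ 3 / (3 - t) := by
      rw [div_le_div_iff₀ (by norm_num) t3]; linarith
    have a4 : 3 ^ 4 / (4 - t) ≤ 81000 / 3728 := by
      rw [div_le_div_iff₀ t4 (by norm_num)]; linarith
    norm_num at a0 a1 a2 a3 a4 ⊢
    linarith
  -- lower bound for `n`
  have hnt : -(1332 / 10000) / t < n := by
    apply gt_of_pos _ hβ n _ hgn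
    · apply div_nonpos_of_nonpos_of_nonneg (by norm_num) t0.le
    · have e : g (-t) (-(1332 / 10000) / t) = (1 / t) * (-1 + 4 * (1332 / 10000) / (1 - t) +
          6 * (1332 / 10000) ^ 2 / (t * (2 - t)) + 4 * (1332 / 10000) ^ 3 / (t ^ 2 * (3 - t)) +
          (1332 / 10000) ^ 4 / (t ^ 3 * (4 - t))) := by
        unfold g
        rw [r1, r2, r3, r4, div_neg]
        field_simp
        ring
      rw [e]
      apply mul_pos (by positivity)
      have b1 : 4 * (1332 / 10000) / (736 / 1000) ≤ 4 * (1332 / 10000) / (1 - t) :=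
        div_le_div_of_nonneg_left (by norm_num) t1 (by linarith)
      have b2 : 6 * (1332 / 10000) ^ 2 / (4700160 / 10000000) ≤
          6 * (1332 / 10000) ^ 2 / (t * (2 - t)) :=
        div_le_div_of_nonneg_left (by norm_num) (by positivity) (by nlinarith)
      have b3 : 4 * (1332 / 10000) ^ 3 / (2019 / 10000) ≤
          4 * (1332 / 10000) ^ 3 / (t ^ 2 * (3 - t)) := by
        apply div_le_div_of_nonneg_left (by norm_num) (by positivity)
        have c0 : (272 / 1000) ^ 2 * (3 - 272 / 1000) - t ^ 2 * (3 - t) = (272 / 1000 - t) *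
            (3 * (272 / 1000 + t) - ((272 / 1000) ^ 2 + 272 / 1000 * t + t ^ 2)) := by ring
        have c1 : 0 ≤ 3 * (272 / 1000 + t) - ((272 / 1000) ^ 2 + 272 / 1000 * t + t ^ 2) := by
          nlinarith
        have c2 := mul_nonneg (sub_nonneg.2 h2) c1
        norm_num at c0 c2 ⊢
        linarith
      have b4 : (1332 / 10000) ^ 4 / (7503 / 100000) ≤
          (1332 / 10000) ^ 4 / (t ^ 3 * (4 - t)) := by
        apply div_le_div_of_nonneg_left (by norm_num) (by positivity)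
        have c1 : t ^ 3 ≤ (272 / 1000) ^ 3 := pow_le_pow_left₀ t0.le h2 3
        have c2 : t ^ 4 ≥ (264 / 1000) ^ 4 := pow_le_pow_left₀ (by norm_num) h1 4
        nlinarith
      norm_num at b1 b2 b3 b4 ⊢
      linarith
  have hnt' : -n * t ≤ 1332 / 10000 := by
    rw [div_lt_iff₀ t0] at hnt
    linarith
  have hn6 : -n ≤ 6 / 10 := by nlinarith
  have hb : -t * n * p = (-n * t) * p := by ring
  have hnt0 : 0 < -n * t := by nlinarith
  have hprod : (-n * t) * p ≤ 1332 / 10000 * (37321 / 10000) :=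
    mul_le_mul hnt' hp1 hp.le (by norm_num)
  have hT : 7499 / 1000 ≤ (4 + -t) / (-t * n * p) := by
    rw [hb, le_div_iff₀ (by positivity)]
    nlinarith
  refine ⟨p3, hT, ?_⟩
  have e : 4 * (4 + -t) / (3 + -t) = 4 + 4 / (3 - t) := by
    rw [r3]
    field_simp
    ring
  have e1 : 4 / (3 - t) ≤ 15 / 10 := by
    rw [div_le_div_iff₀ t3 (by norm_num)]; linarith
  have e2 : 1 ≤ 4 / (3 - t) := by
    rw [le_div_iff₀ t3]; linarith
  rw [e]
  have : (4 + 4 / (3 - t) - n - p) ^ 2 ≤ 4 ^ 2 := by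
    apply sq_le_sq'
    · linarith
    · linarith
  linarith

/-- For `α = 3` there is no parameter at which the moduli of all three branches `X 1, X 2, X 3`
are minimal. -/
theorem result (X : Fin 4 → ℝ → ℂ) (hX : IsBranches 3 X) :
    ¬ ∃ b ∈ Ioo (-1 : ℝ) 0, ∀ k : Fin 4, k ≠ 0 → ∀ β ∈ Ioo (-1 : ℝ) 0, ‖X k b‖ ≤ ‖X k β‖ := by
  rintro ⟨b, hb, hmin⟩
  have hβ₁ : (-(67 / 250) : ℝ) ∈ Ioo (-1 : ℝ) 0 := by constructor <;> norm_num
  have hβ₀ : (-(1 / 3) : ℝ) ∈ Ioo (-1 : ℝ) 0 := by constructor <;> norm_num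
  obtain ⟨n, p, hn, hp, hgn, hgp, -, k₁, hk₁0, hk₁, hrest⟩ := shape X hX b hb
  have hp1 : p ≤ 37321 / 10000 := by
    have h1 := (hmin k₁ hk₁0 _ hβ₁).trans (bound_one X hX k₁ hk₁0)
    rw [hk₁, Complex.norm_real, Real.norm_eq_abs, abs_of_pos hp] at h1
    exact h1
  have hloc := localise b hb (sign_ge b hb p _ hgp (Or.inl ⟨hp, hp1⟩))
  obtain ⟨t, rfl⟩ : ∃ t, b = -t := ⟨-b, by ring⟩
  obtain ⟨h3, hT, hS⟩ := at_min t (by linarith [hloc.2]) (by linarith [hloc.1]) n p hn hp hgn hgp hp1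
  obtain ⟨j, hj0, hj⟩ := bound_zero X hX
  have h4 := hmin j hj0 _ hβ₀
  have h5 : ‖X j (-t)‖ ^ 2 ≤ 7488 / 1000 :=
    (pow_le_pow_left₀ (norm_nonneg _) h4 2).trans hj
  by_cases hjk : j = k₁
  · rw [hjk, hk₁, Complex.norm_real, Real.norm_eq_abs, abs_of_pos hp] at h5
    nlinarith
  · rw [hrest j hj0 hjk hS] at h5
    linarith

end Pool.Agent.Results.MP_9fecad_an.NoCommonMin
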